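import Pool.Agent.Q17.IsoGame.Main

/-!
# MP_3b70de_al, Q1: a negative answer

There are finite graphs `G`, `H` whose isomorphism game algebra `A(G, H)` exists and is nonzero,
and which does not embed into the full group C*-algebra of the solution group of any binary linear
system (indeed there is no unital *-homomorphism at all from `A(G, H)` to the full group C*-algebra
of any discrete group).  The graphs are the two graphs of the magic square (24 vertices each).
-/

namespace Pool.Agent.Results.MP_3b70de_al

open Q17.IsoGame Q17.IsoGame.Grp

theorem NoEmbedding.result :
    ∃ (V W : Type) (_ : Fintype V) (_ : Fintype W) (G : SimpleGraph V) (H : SimpleGraph W),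
      -- the isomorphism game algebra of `G` and `H` exists
      (∃ (A : Type) (_ : CStarAlgebra A) (p : V → W → A), IsIsoGameAlgebra G H A p) ∧
      ∀ (A : Type) [CStarAlgebra A] (p : V → W → A), IsIsoGameAlgebra G H A p →
        -- it is not zero
        Nontrivial A ∧
        -- for every binary linear system `M x = b` the full group C*-algebra of the solution
        -- group exists, and `A` does not embed into it
        (∀ (m n : ℕ) (M : Matrix (Fin m) (Fin n) (ZMod 2)) (b : Fin m → ZMod 2),
          (∃ (C : Type) (_ : CStarAlgebra C) (u : SolutionGroup M b →* unitary C),
            IsFullGroupCStar (SolutionGroup M b) C u) ∧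
          ∀ (C : Type) [CStarAlgebra C] (u : SolutionGroup M b →* unitary C),
            IsFullGroupCStar (SolutionGroup M b) C u →
            ¬ ∃ φ : A →⋆ₐ[ℂ] C, Function.Injective φ) ∧
        -- there is no unital *-homomorphism from `A` to the full group C*-algebra of any group
        (∀ (Γ : Type) [Group Γ] (C : Type) [CStarAlgebra C] (u : Γ →* unitary C),
            IsFullGroupCStar Γ C u → IsEmpty (A →⋆ₐ[ℂ] C)) :=
  Q17.IsoGame.main

end Pool.Agent.Results.MP_3b70de_al
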